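import Pool.Agent.W300.FT.Stm

set_option autoImplicit false

/-!
# Project FT, part HIT: a local rule fails on every long walk
-/

namespace Pool.Agent.W326.FT

open MeasureTheory ProbabilityTheory Pool.Agent.W300.FT

theorem meas_forall {α : Type*} [MeasurableSpace α] {ι : Sort*} [Countable ι] {p : ι → α → Prop}
    (h : ∀ i, MeasurableSet {a | p i a}) : MeasurableSet {a | ∀ i, p i a} := by
  have e : {a | ∀ i, p i a} = ⋂ i, {a | p i a} := by
    ext a
    simp
  rw [e]
  exact MeasurableSet.iInter h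

/-- all fibres are measurable -/
def M2 {α : Type*} [MeasurableSpace α] (h : α → ZMod 2) : Prop :=
  ∀ e, MeasurableSet {y | h y = e}

theorem M2_bin {α : Type*} [MeasurableSpace α] {h1 h2 : α → ZMod 2} (f : ZMod 2 → ZMod 2 → ZMod 2)
    (m1 : M2 h1) (m2 : M2 h2) : M2 (fun y => f (h1 y) (h2 y)) := by
  intro e
  have e1 : {y | f (h1 y) (h2 y) = e} =
      ⋃ s : ZMod 2 × ZMod 2, ⋃ (_ : f s.1 s.2 = e), ({y | h1 y = s.1} ∩ {y | h2 y = s.2}) := by
    ext y
    simp only [Set.mem_ofPred_eq, Set.mem_iUnion, Set.mem_inter_iff, exists_prop, Prod.exists]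
    constructor
    · intro h
      exact ⟨_, _, h, rfl, rfl⟩
    · rintro ⟨s1, s2, h, h3, h4⟩
      rw [h3, h4, h]
  rw [e1]
  exact MeasurableSet.iUnion fun s => MeasurableSet.iUnion fun _ => (m1 _).inter (m2 _)

theorem M2_bt {α : Type*} [MeasurableSpace α] {h : α → Bool} (hh : Measurable h) :
    M2 (fun y => bt (h y)) := by
  intro e
  have e1 : {y | bt (h y) = e} = h ⁻¹' {b | bt b = e} := rfl
  rw [e1]
  exact hh (Set.toFinite _).measurableSet

theorem M2_sum {α : Type*} [MeasurableSpace α] (s : Finset ℕ) (h : ℕ → α → ZMod 2)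
    (hh : ∀ j ∈ s, M2 (h j)) : M2 (fun y => ∑ j ∈ s, h j y) := by
  classical
  induction s using Finset.induction_on with
  | empty =>
    intro e
    simp only [Finset.sum_empty]
    exact MeasurableSet.const _
  | insert a s ha ih =>
    have h1 := M2_bin (fun x y => x + y) (hh a (Finset.mem_insert_self _ _))
      (ih fun j hj => hh j (Finset.mem_insert_of_mem hj))
    have e : (fun y => ∑ j ∈ insert a s, h j y) = fun y => h a y + ∑ j ∈ s, h j y := by
      funext y
      rw [Finset.sum_insert ha]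
    rw [e]
    exact h1

theorem M2_eq {α : Type*} [MeasurableSpace α] {h1 h2 : α → ZMod 2} (m1 : M2 h1) (m2 : M2 h2) :
    MeasurableSet {y | h1 y = h2 y} := by
  have h := M2_bin (fun x y => x - y) m1 m2 0
  have e : {y | h1 y = h2 y} = {y | h1 y - h2 y = 0} := by
    ext y
    simp [sub_eq_zero]
  rw [e]
  exact h

theorem M2_dec {α : Type*} [MeasurableSpace α] {h : α → ZMod 2} (m : M2 h) :
    Measurable (fun y => decide (h y = 1)) := by
  apply measurable_to_bool
  have e : (fun y => decide (h y = 1)) ⁻¹' {true} = {y | h y = 1} := by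
    ext y
    simp
  rw [e]
  exact m 1

theorem bool_rel (a b : Bool) (S T : ZMod 2) (h : bt a * bt b = S + T) :
    (a && b) = xor (decide (S = 1)) (decide (T = 1)) := by
  revert a b S T
  decide

theorem meas_Mx {V : Type} (G : SimpleGraph V) (c : ℕ × ℕ) (γ : ℕ → V) :
    MeasurableSet {x : V → K → Bool | Mx G x c γ} := by
  have hk : ∀ (v : V) (k : K), MeasurableSet {x : V → K → Bool | x v k = true} := by
    intro v k
    have h : Measurable (fun x : V → K → Bool => x v k) :=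
      (measurable_pi_apply k).comp (measurable_pi_apply v)
    exact h (measurableSet_singleton true)
  unfold Mx
  refine meas_forall fun j => meas_forall fun _ => ?_
  refine MeasurableSet.inter (MeasurableSet.const _) ?_
  refine MeasurableSet.inter (hk _ _) ?_
  refine MeasurableSet.inter (hk _ _) ?_
  exact MeasurableSet.inter (hk _ _) (hk _ _)

/-- the relation, almost surely -/
theorem rel_ae (hrel : S_REL) (hm : S_MEAS) {V : Type} (G : SimpleGraph V) (hV : Countable V)
    (c : ℕ × ℕ) (γ : ℕ → V) : ∀ᵐ x ∂(muX G), Mx G x c γ → ∀ i : ℕ, 2 ≤ i →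
      bt (x (γ 0) (c, 0, i)) * bt (x (γ (c.1 + 2)) (c, c.1 + 2, i)) =
        ∑ j ∈ Finset.Ioo 0 (c.1 + 2), bt (x (γ j) (c, j, i)) := by
  have hPsi := (hm V G ∅ hV).1
  unfold muX
  rw [ae_map_iff hPsi.aemeasurable]
  · exact Filter.Eventually.of_forall fun ω => hrel V G ω c γ
  · have hx : ∀ (v : V) (k : K), Measurable (fun x : V → K → Bool => x v k) := fun v k =>
      (measurable_pi_apply k).comp (measurable_pi_apply v)
    have e : {x : V → K → Bool | Mx G x c γ → ∀ i : ℕ, 2 ≤ i →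
        bt (x (γ 0) (c, 0, i)) * bt (x (γ (c.1 + 2)) (c, c.1 + 2, i)) =
        ∑ j ∈ Finset.Ioo 0 (c.1 + 2), bt (x (γ j) (c, j, i))} =
        {x | Mx G x c γ}ᶜ ∪ {x | ∀ i : ℕ, 2 ≤ i →
        bt (x (γ 0) (c, 0, i)) * bt (x (γ (c.1 + 2)) (c, c.1 + 2, i)) =
        ∑ j ∈ Finset.Ioo 0 (c.1 + 2), bt (x (γ j) (c, j, i))} := by
      ext x
      simp only [Set.mem_ofPred_eq, Set.mem_union, Set.mem_compl_iff]
      exact imp_iff_not_or
    rw [e]
    refine (meas_Mx G c γ).compl.union ?_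
    refine meas_forall fun i => meas_forall fun _ => ?_
    exact M2_eq (M2_bin (fun a b => a * b) (M2_bt (hx _ _)) (M2_bt (hx _ _)))
      (M2_sum _ _ fun j _ => M2_bt (hx _ _))

/-- the end bits, seen in the labels -/
theorem bit_ae (hbit : S_BIT) (h3 : S_LOC3) {V : Type} (G : SimpleGraph V) (hV : Countable V)
    (F : (V → unitInterval) → V → K → Bool) (hF : Measurable F) (hlaw : (PI V).map F = muX G)
    (m : ℕ) (v : V) (c : ℕ × ℕ) (j : ℕ) (hj : j ≠ 1) (I : Set ℕ) (hI : I.Infinite) (b : ℕ → Bool) :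
    PI V (Loc G F m v ∩ {y | ∀ i ∈ I, Gf G F m v y (c, j, i + 2) = b i}) = 0 := by
  have h1 := hbit V G hV v c j hj I hI b
  rw [measure_eq_zero_iff_ae_notMem, ← hlaw] at h1
  have h2 := ae_of_ae_map hF.aemeasurable h1
  rw [measure_eq_zero_iff_ae_notMem]
  filter_upwards [h2, h3 V G F hV hF m v] with y hy1 hy2
  rintro ⟨hy3, hy4⟩
  apply hy1
  intro i hi
  rw [hy2 hy3]
  exact hy4 i hi

/-- the local conditions at the step `j` -/
def St {V : Type} (G : SimpleGraph V) (F : (V → unitInterval) → V → K → Bool) (m : ℕ) (γ : ℕ → V)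
    (c : ℕ × ℕ) (j : ℕ) (y : V → unitInterval) : Prop :=
  Gf G F m (γ j) y (c, j, 0) = true ∧ Gf G F m (γ (j + 1)) y (c, j, 0) = true ∧
    Gf G F m (γ j) y (c, j, 1) = true ∧ Gf G F m (γ (j + 1)) y (c, j, 1) = true

/-- the conditions on the positions `s ≤ j ≤ t` -/
def EE {V : Type} (G : SimpleGraph V) (F : (V → unitInterval) → V → K → Bool) (m : ℕ) (γ : ℕ → V)
    (c : ℕ × ℕ) (s t : ℕ) : Set (V → unitInterval) :=
  {y | (∀ j, s ≤ j → j ≤ t → y ∈ Loc G F m (γ j)) ∧ ∀ j, s ≤ j → j < t → St G F m γ c j y}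

/-- the sums -/
noncomputable def SS {V : Type} (G : SimpleGraph V) (F : (V → unitInterval) → V → K → Bool) (m : ℕ) (γ : ℕ → V)
    (c : ℕ × ℕ) (T : Finset ℕ) (y : V → unitInterval) (i : ℕ) : ZMod 2 :=
  ∑ j ∈ T, bt (Gf G F m (γ j) y (c, j, i + 2))

theorem EE_meas (h1 : S_LOC1) {V : Type} (G : SimpleGraph V) (hV : Countable V)
    (F : (V → unitInterval) → V → K → Bool) (hF : Measurable F) (m : ℕ) (γ : ℕ → V) (c : ℕ × ℕ)
    (s t : ℕ) : MeasurableSet (EE G F m γ c s t) := by
  have hk : ∀ (v : V) (k : K), MeasurableSet {y | Gf G F m v y k = true} := by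
    intro v k
    have h : Measurable (fun y => Gf G F m v y k) :=
      (measurable_pi_apply k).comp (h1 V G F hV hF m v).2
    exact h (measurableSet_singleton true)
  unfold EE
  refine MeasurableSet.inter ?_ ?_
  · exact meas_forall fun j => meas_forall fun _ => meas_forall fun _ => (h1 V G F hV hF m _).1
  · refine meas_forall fun j => meas_forall fun _ => meas_forall fun _ => ?_
    unfold St
    refine MeasurableSet.inter (hk _ _) ?_
    refine MeasurableSet.inter (hk _ _) ?_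
    exact MeasurableSet.inter (hk _ _) (hk _ _)

theorem EE_dep (h2 : S_LOC2) {V : Type} (G : SimpleGraph V)
    (F : (V → unitInterval) → V → K → Bool) (m : ℕ) (γ : ℕ → V) (c : ℕ × ℕ)
    (s t : ℕ) (N : Set V) (hN : ∀ j, s ≤ j → j ≤ t → Bal G m (γ j) ⊆ N) :
    DepN N (· ∈ EE G F m γ c s t) := by
  have key : ∀ y y' : V → unitInterval, (∀ u ∈ N, y u = y' u) → y ∈ EE G F m γ c s t →
      y' ∈ EE G F m γ c s t := by
    intro y y' hyy hy
    have H : ∀ j, s ≤ j → j ≤ t → (y ∈ Loc G F m (γ j) ↔ y' ∈ Loc G F m (γ j)) ∧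
        Gf G F m (γ j) y = Gf G F m (γ j) y' := fun j hj1 hj2 =>
      h2 V G F m (γ j) y y' fun u hu => hyy u (hN j hj1 hj2 hu)
    refine ⟨fun j hj1 hj2 => (H j hj1 hj2).1.1 (hy.1 j hj1 hj2), fun j hj1 hj2 => ?_⟩
    have h := hy.2 j hj1 hj2
    unfold St at h ⊢
    rwa [← (H j hj1 hj2.le).2, ← (H (j + 1) (by omega) (by omega)).2]
  intro y y' hyy
  exact propext ⟨key y y' hyy, key y' y fun u hu => (hyy u hu).symm⟩

theorem SS_M2 (h1 : S_LOC1) {V : Type} (G : SimpleGraph V) (hV : Countable V)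
    (F : (V → unitInterval) → V → K → Bool) (hF : Measurable F) (m : ℕ) (γ : ℕ → V) (c : ℕ × ℕ)
    (T : Finset ℕ) (i : ℕ) : M2 (fun y => SS G F m γ c T y i) := by
  unfold SS
  apply M2_sum
  intro j _
  apply M2_bt
  exact (measurable_pi_apply _).comp (h1 V G F hV hF m (γ j)).2

theorem SS_dep (h2 : S_LOC2) {V : Type} (G : SimpleGraph V)
    (F : (V → unitInterval) → V → K → Bool) (m : ℕ) (γ : ℕ → V) (c : ℕ × ℕ)
    (T : Finset ℕ) (N : Set V) (hN : ∀ j ∈ T, Bal G m (γ j) ⊆ N) :
    DepN N (fun y i => decide (SS G F m γ c T y i = 1)) := by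
  intro y y' hyy
  funext i
  have e : SS G F m γ c T y i = SS G F m γ c T y' i := by
    unfold SS
    refine Finset.sum_congr rfl fun j hj => ?_
    rw [(h2 V G F m (γ j) y y' fun u hu => hyy u (hN j hj hu)).2]
  simp only [e]

theorem hit (hprv : S_PRV) (hrel : S_REL) (hcov : S_COV) (hbit : S_BIT) (h1 : S_LOC1)
    (h2 : S_LOC2) (h3 : S_LOC3) (hgeo : S_GEO) (hm : S_MEAS) : S_HIT := by
  intro V G hV hT h3r F hF hlaw m γ hγ
  have hconn : G.Connected := hT.connected
  -- the null sets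
  have hnull : ∀ c1 : ℕ, PI V (EE G F m γ (4 * m, c1) 0 (2 * m + 1) ∩
      EE G F m γ (4 * m, c1) (2 * m + 1) (4 * m + 2)) = 0 := by
    intro c1
    set c : ℕ × ℕ := (4 * m, c1) with hc
    have hdist : ∀ i j : ℕ, i ≤ j → j ≤ 4 * m + 2 → 2 * m < j - i →
        Disjoint (Bal G m (γ i)) (Bal G m (γ j)) := by
      intro i j hij hj hlt
      rw [Set.disjoint_left]
      intro u hu1 hu2
      have e1 : G.dist (γ i) u ≤ m := hu1
      have e2 : G.dist (γ j) u ≤ m := hu2
      have e3 := hgeo V G hT (4 * m + 2) γ hγ i j hij hj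
      have e4 : G.dist (γ i) (γ j) ≤ G.dist (γ i) u + G.dist u (γ j) := hconn.dist_triangle
      rw [G.dist_comm (u := u)] at e4
      omega
    refine hprv V (⋃ j ∈ Set.Icc 0 (2 * m + 1), Bal G m (γ j))
      (⋃ j ∈ Set.Icc (2 * m + 1) (4 * m + 2), Bal G m (γ j)) (Bal G m (γ 0))
      (Bal G m (γ (4 * m + 2))) hV ?_ ?_ ?_ ?_
      (EE G F m γ c 0 (2 * m + 1)) (EE G F m γ c (2 * m + 1) (4 * m + 2))
      (Loc G F m (γ 0)) (Loc G F m (γ (4 * m + 2)))
      (fun y i => Gf G F m (γ 0) y (c, 0, i + 2))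
      (fun y i => Gf G F m (γ (4 * m + 2)) y (c, 4 * m + 2, i + 2))
      (fun y i => decide (SS G F m γ c (Finset.Ioc 0 (2 * m + 1)) y i = 1))
      (fun y i => decide (SS G F m γ c (Finset.Ioo (2 * m + 1) (4 * m + 2)) y i = 1))
      (EE_meas h1 G hV F hF m γ c _ _) (EE_meas h1 G hV F hF m γ c _ _)
      (h1 V G F hV hF m _).1 (h1 V G F hV hF m _).1 ?_ ?_ ?_ ?_ ?_ ?_ ?_ ?_ ?_ ?_ ?_ ?_ ?_ ?_ ?_
      ?_ ?_
    · exact Set.subset_biUnion_of_mem (u := fun j => Bal G m (γ j))
        (show (0 : ℕ) ∈ Set.Icc 0 (2 * m + 1) from ⟨le_rfl, by omega⟩)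
    · exact Set.subset_biUnion_of_mem (u := fun j => Bal G m (γ j))
        (show 4 * m + 2 ∈ Set.Icc (2 * m + 1) (4 * m + 2) from ⟨by omega, le_rfl⟩)
    · rw [Set.disjoint_iUnion₂_right]
      intro j hj
      exact hdist 0 j (by omega) hj.2 (by have := hj.1; omega)
    · rw [Set.disjoint_iUnion₂_right]
      intro j hj
      exact (hdist j (4 * m + 2) (by have := hj.2; omega) le_rfl (by have := hj.2; omega)).symm
    · exact measurable_pi_lambda _ fun i =>
        (measurable_pi_apply _).comp (h1 V G F hV hF m (γ 0)).2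
    · exact measurable_pi_lambda _ fun i =>
        (measurable_pi_apply _).comp (h1 V G F hV hF m (γ (4 * m + 2))).2
    · exact measurable_pi_lambda _ fun i => M2_dec (SS_M2 h1 G hV F hF m γ c _ i)
    · exact measurable_pi_lambda _ fun i => M2_dec (SS_M2 h1 G hV F hF m γ c _ i)
    · exact EE_dep h2 G F m γ c _ _ _ fun j hj1 hj2 =>
        Set.subset_biUnion_of_mem (u := fun j => Bal G m (γ j))
          (show j ∈ Set.Icc 0 (2 * m + 1) from ⟨hj1, hj2⟩)
    · exact EE_dep h2 G F m γ c _ _ _ fun j hj1 hj2 =>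
        Set.subset_biUnion_of_mem (u := fun j => Bal G m (γ j))
          (show j ∈ Set.Icc (2 * m + 1) (4 * m + 2) from ⟨hj1, hj2⟩)
    · intro y y' hyy
      exact propext (h2 V G F m (γ 0) y y' hyy).1
    · intro y y' hyy
      exact propext (h2 V G F m (γ (4 * m + 2)) y y' hyy).1
    · intro y y' hyy
      funext i
      simp only
      rw [(h2 V G F m (γ 0) y y' hyy).2]
    · intro y y' hyy
      funext i
      simp only
      rw [(h2 V G F m (γ (4 * m + 2)) y y' hyy).2]
    · apply SS_dep h2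
      intro j hj
      rw [Finset.mem_Ioc] at hj
      exact Set.subset_biUnion_of_mem (u := fun j => Bal G m (γ j))
        (show j ∈ Set.Icc 0 (2 * m + 1) from ⟨by omega, hj.2⟩)
    · apply SS_dep h2
      intro j hj
      rw [Finset.mem_Ioo] at hj
      exact Set.subset_biUnion_of_mem (u := fun j => Bal G m (γ j))
        (show j ∈ Set.Icc (2 * m + 1) (4 * m + 2) from ⟨by omega, by omega⟩)
    · intro y hy
      exact hy.1 0 le_rfl (by omega)
    · intro y hy
      exact hy.1 (4 * m + 2) (by omega) le_rfl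
    · have hloc : ∀ᵐ y ∂(PI V), ∀ j : ℕ, y ∈ Loc G F m (γ j) →
          F y (γ j) = Gf G F m (γ j) y := by
        rw [ae_all_iff]
        exact fun j => h3 V G F hV hF m (γ j)
      have hr := rel_ae hrel hm G hV c γ
      rw [← hlaw] at hr
      have hr2 := ae_of_ae_map hF.aemeasurable hr
      filter_upwards [hloc, hr2] with y hy1 hy2 hL hR i
      have hFy : ∀ j, j ≤ 4 * m + 2 → F y (γ j) = Gf G F m (γ j) y := by
        intro j hj
        apply hy1
        rcases le_total j (2 * m + 1) with h | h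
        · exact hL.1 j (Nat.zero_le _) h
        · exact hR.1 j h hj
      have hMx : Mx G (F y) c γ := by
        intro j hj
        have hj' : j < 4 * m + 2 := hj
        have hst : St G F m γ c j y := by
          rcases lt_or_ge j (2 * m + 1) with h | h
          · exact hL.2 j (Nat.zero_le _) h
          · exact hR.2 j h hj'
        obtain ⟨s1, s2, s3, s4⟩ := hst
        rw [hFy j hj'.le, hFy (j + 1) hj']
        exact ⟨hγ.1 j hj', s1, s2, s3, s4⟩
      have hrel2 := hy2 hMx (i + 2) (by omega)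
      have e1 : F y (γ 0) = Gf G F m (γ 0) y := hFy 0 (by omega)
      have e2 : F y (γ (c.1 + 2)) = Gf G F m (γ (4 * m + 2)) y := hFy (4 * m + 2) le_rfl
      have e3 : ∑ j ∈ Finset.Ioo 0 (c.1 + 2), bt (F y (γ j) (c, j, i + 2)) =
          SS G F m γ c (Finset.Ioc 0 (2 * m + 1)) y i +
            SS G F m γ c (Finset.Ioo (2 * m + 1) (4 * m + 2)) y i := by
        have e4 : Finset.Ioo 0 (c.1 + 2) = Finset.Ioc 0 (2 * m + 1) ∪
            Finset.Ioo (2 * m + 1) (4 * m + 2) := by
          ext j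
          simp only [hc, Finset.mem_Ioo, Finset.mem_union, Finset.mem_Ioc]
          omega
        have e5 : Disjoint (Finset.Ioc 0 (2 * m + 1)) (Finset.Ioo (2 * m + 1) (4 * m + 2)) := by
          rw [Finset.disjoint_left]
          intro j hj1 hj2
          rw [Finset.mem_Ioc] at hj1
          rw [Finset.mem_Ioo] at hj2
          omega
        rw [e4, Finset.sum_union e5]
        unfold SS
        congr 1
        · refine Finset.sum_congr rfl fun j hj => ?_
          rw [Finset.mem_Ioc] at hj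
          rw [hFy j (by omega)]
        · refine Finset.sum_congr rfl fun j hj => ?_
          rw [Finset.mem_Ioo] at hj
          rw [hFy j (by omega)]
      rw [e1, e2, e3] at hrel2
      exact bool_rel _ _ _ _ hrel2
    · intro I hI b
      exact bit_ae hbit h3 G hV F hF hlaw m (γ 0) c 0 (by omega) I hI b
    · intro I hI b
      exact bit_ae hbit h3 G hV F hF hlaw m (γ (4 * m + 2)) c (4 * m + 2) (by omega) I hI b
  have hcv := hcov V G hV h3r (4 * m) γ (fun j hj => hγ.1 j hj)
  rw [← hlaw] at hcv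
  have hcv2 := ae_of_ae_map hF.aemeasurable hcv
  have hloc : ∀ᵐ y ∂(PI V), ∀ j : ℕ, y ∈ Loc G F m (γ j) → F y (γ j) = Gf G F m (γ j) y := by
    rw [ae_all_iff]
    exact fun j => h3 V G F hV hF m (γ j)
  have hnull2 : ∀ᵐ y ∂(PI V), ∀ c1 : ℕ, y ∉ (EE G F m γ (4 * m, c1) 0 (2 * m + 1) ∩
      EE G F m γ (4 * m, c1) (2 * m + 1) (4 * m + 2)) := by
    rw [ae_all_iff]
    exact fun c1 => measure_eq_zero_iff_ae_notMem.1 (hnull c1)
  filter_upwards [hcv2, hloc, hnull2] with y hy1 hy2 hy3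
  by_contra hcon
  push Not at hcon
  obtain ⟨c1, hMx⟩ := hy1
  have hFy : ∀ j, j ≤ 4 * m + 2 → F y (γ j) = Gf G F m (γ j) y := fun j hj => hy2 j (hcon j hj)
  have hst : ∀ j, j < 4 * m + 2 → St G F m γ (4 * m, c1) j y := by
    intro j hj
    obtain ⟨-, s1, s2, s3, s4⟩ := hMx j hj
    rw [hFy j hj.le] at s1 s3
    rw [hFy (j + 1) hj] at s2 s4
    exact ⟨s1, s2, s3, s4⟩
  apply hy3 c1
  exact ⟨⟨fun j _ hj => hcon j (by omega), fun j _ hj => hst j (by omega)⟩,
    ⟨fun j _ hj => hcon j hj, fun j _ hj => hst j hj⟩⟩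

end Pool.Agent.W326.FT
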